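import Pool.Agent.Sph4.Main
import Pool.Agent.HopfFree.Std
import Pool.Agent.HopfFin.FinIdx

/-!
# Contractions
-/

set_option autoImplicit false

open scoped ContDiff Topology Manifold
open Set Filter Metric

namespace Pool.Agent.Sph4

open Pool.Agent.HopfCov hiding pr
open Pool.Agent.HopfFin
open Pool.Agent.HopfTw
open Pool.Agent.HopfFree
open Pool.Agent.HopfCov.Smooth

theorem tau_apply'' (x : E4) : (tau : E4 ≃ₜ E4) x = (2⁻¹ : ℝ) • x := tau_apply x

theorem mem_derD_ext {g : Homeo4} (hg : g ∈ grpD) : g ∈ derD ↔ Ext (show E4 ≃ₜ E4 from g) := by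
  rw [derD_iff]
  exact ⟨fun h => extendable_iff.1 h.2, fun h => ⟨hg, extendable_iff.2 h⟩⟩

/-- contractions of norm at most `1 / 2` which extend are standard -/
theorem cj_of_half {G : E4 ≃ₜ E4} (hG : PD 1 G) (hE : Ext G) (h : ∀ x, ‖G x‖ ≤ 2⁻¹ * ‖x‖) :
    ∃ Φ : E4 ≃ₜ E4, PD 1 Φ ∧ Φ * G = tau * Φ := by
  obtain ⟨Φ, h1, h2⟩ := std_of_Off hG (contr_of_half h) ⟨G, trap_of_half h, Cj.refl G⟩ hE
  obtain ⟨s, hs, hP⟩ := h1.exists_sign
  rcases mul_self_eq_one_iff.1 hs with rfl | rfl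
  · exact ⟨Φ, hP, h2⟩
  · refine ⟨linH refl0 * Φ, ?_, ?_⟩
    · exact PD_refl.mul_neg hP
    · rw [mul_assoc, h2, ← mul_assoc, ← mul_assoc]
      congr 1
      refine Homeomorph.ext fun x => ?_
      rw [mul_apply', mul_apply', tau_apply'', tau_apply'']
      exact (refl0.toLinearEquiv.map_smul _ _)

theorem dyn_iff : (∀ G ∈ grpD, (∀ x, nrm (G.fn x) ≤ nrm x / 2) →
      ∃ h ∈ grpD, ∀ x, h.fn (G.fn x) = (2⁻¹ : ℝ) • (h.fn x)) ↔ derD = grpD := by
  constructor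
  · intro h
    refine le_antisymm (fun g hg => (derD_iff.1 hg).1) fun g hg => ?_
    obtain ⟨G, h1, h2, h3⟩ := Pool.Agent.HopfCov.realise (E := E4) (mem_groupD.1 hg)
    obtain ⟨k, hk, h4⟩ := h G (mem_groupD.2 h1) fun x => by
      have := h2 x
      rw [inv_mul_eq_div] at this
      exact this
    have hk' : PD 1 (show E4 ≃ₜ E4 from k) := mem_groupD.1 hk
    have h5 : (show E4 ≃ₜ E4 from k) * G = tau * (show E4 ≃ₜ E4 from k) :=
      Homeomorph.ext fun x => (h4 x).trans (tau_apply'' _).symm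
    have h6 : Ext G := by
      have h7 : G = (show E4 ≃ₜ E4 from k)⁻¹ * tau * ((show E4 ≃ₜ E4 from k)⁻¹)⁻¹ := by
        rw [inv_inv, mul_assoc, ← h5, inv_mul_cancel_left]
      rw [h7]
      exact Ext.conj hGerm hSwap hdim4 (one_mul 1) Ext_tau hk'.inv
    have h7 : (show Homeo4 from G) ∈ derD := (mem_derD_ext (mem_groupD.2 h1)).2 h6
    have h8 : (show Homeo4 from G) * g⁻¹ ∈ derD :=
      (mem_derD_ext (grpD.mul_mem (mem_groupD.2 h1) (grpD.inv_mem hg))).2 h3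
    have h9 := derD.mul_mem (derD.inv_mem h8) h7
    rwa [mul_inv_rev, inv_inv, inv_mul_cancel_right] at h9
  · intro h G hG hx
    have hG' : PD 1 (show E4 ≃ₜ E4 from G) := mem_groupD.1 hG
    have hE : Ext (show E4 ≃ₜ E4 from G) := (mem_derD_ext hG).1 (by rw [h]; exact hG)
    obtain ⟨Φ, h1, h2⟩ := cj_of_half hG' hE fun x => by
      rw [inv_mul_eq_div]
      exact hx x
    exact ⟨Φ, mem_groupD.2 h1, fun x => (DFunLike.congr_fun h2 x).trans (tau_apply'' _)⟩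

theorem man_iff : (∀ M : Mfd4, OffPoint M → DiffeoS1S3 M) ↔ derD = grpD := by
  constructor
  · intro h
    refine uniq_pos.1 fun M X hX hM => h M ?_
    obtain ⟨F, x₀, hF⟩ := (almost_off (Or.inl hX)).1 hM
    obtain ⟨Ψ⟩ := hX
    refine ⟨F.trans Ψ.toHomeomorph, x₀, fun x hx => ?_⟩
    have h1 : IsLocalDiffeomorphAt (𝓡 4) model13 ∞ Ψ (F x) := Ψ.isLocalDiffeomorph (F x)
    exact (hF x hx).comp (K := model13) (hg := h1)
  · intro h M hM
    obtain ⟨X, hX, hMX⟩ := almost_of_offPoint hM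
    exact uniq_pos.2 h M X hX hMX

end Pool.Agent.Sph4
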