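import Pool.Agent.Sph4.Rad
import Pool.Agent.Sph4.Dyn

/-!
# Every element of `[D, D]` is a commutator

Let `g` be in `[D, D]`, and let `ρ` be a radial contraction such that `G = ρ g` is a contraction. The
classes of `ρ` and `G` are trivial, so both are conjugate in `D` to `τ = (x ↦ x / 2)`, say `Ψ ρ = τ Ψ` and
`Φ G = τ Φ`. So `g = ρ⁻¹ G` is the product of a conjugate of `τ⁻¹` and a conjugate of `τ`, hence a
commutator.
-/

set_option autoImplicit false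

open scoped ContDiff Topology Manifold
open Set Filter Metric

namespace Pool.Agent.Sph4

open Pool.Agent.HopfCov hiding pr
open Pool.Agent.HopfFin
open Pool.Agent.HopfCov.Smooth

/-- a product of a conjugate of `t⁻¹` and a conjugate of `t` is a commutator -/
theorem conj_comm {A : Type*} [Group A] (x y t : A) :
    (x⁻¹ * t⁻¹ * x) * (y⁻¹ * t * y) =
      (x⁻¹ * t⁻¹ * x) * (x⁻¹ * (x * y⁻¹) * x) * (x⁻¹ * t⁻¹ * x)⁻¹ * (x⁻¹ * (x * y⁻¹) * x)⁻¹ := by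
  group

theorem exists_comm {g : E4 ≃ₜ E4} (hg : PD 1 g) (hE : Ext g) :
    ∃ a b : E4 ≃ₜ E4, PD 1 a ∧ PD 1 b ∧ g = a * b * a⁻¹ * b⁻¹ := by
  obtain ⟨e, A, he, a1, a2, a3, h1, h2⟩ := exists_rad2 (E := E4) hg.1
  have hR : PD 1 (rad e : E4 ≃ₜ E4) := PD_rad he a1 a2
  have hRE : Ext (rad e : E4 ≃ₜ E4) := Ext_rad he a1 a2 a3
  obtain ⟨Ψ, p1, p2⟩ := cj_of_half hR hRE h2
  obtain ⟨Φ, q1, q2⟩ := cj_of_half (hR.mul_one' hg) (hRE.mul hE) h1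
  have e1 : (rad e : E4 ≃ₜ E4) = Ψ⁻¹ * tau * Ψ := by
    rw [mul_assoc, ← p2, inv_mul_cancel_left]
  have e2 : (rad e : E4 ≃ₜ E4) * g = Φ⁻¹ * tau * Φ := by
    rw [mul_assoc, ← q2, inv_mul_cancel_left]
  have e3 : g = (Ψ⁻¹ * tau⁻¹ * Ψ) * (Φ⁻¹ * tau * Φ) := by
    rw [← e2, e1]
    group
  have ht : PD 1 (tau⁻¹ : E4 ≃ₜ E4) := PD_tau.inv
  refine ⟨Ψ⁻¹ * tau⁻¹ * Ψ, Ψ⁻¹ * (Ψ * Φ⁻¹) * Ψ, (p1.inv.mul_one' ht).mul_one' p1,
    (p1.inv.mul_one' (p1.mul_one' q1.inv)).mul_one' p1, ?_⟩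
  rw [e3]
  exact conj_comm _ _ _

theorem comm_iff {g : Homeo4} (hg : g ∈ grpD) :
    g ∈ derD ↔ ∃ a ∈ grpD, ∃ b ∈ grpD, g = a * b * a⁻¹ * b⁻¹ := by
  constructor
  · intro h
    obtain ⟨a, b, ha, hb, hab⟩ := exists_comm (mem_groupD.1 hg) ((mem_derD_ext hg).1 h)
    exact ⟨a, mem_groupD.2 ha, b, mem_groupD.2 hb, hab⟩
  · rintro ⟨a, ha, b, hb, rfl⟩
    exact Subgroup.commutator_mem_commutator ha hb

theorem sch_comm : Schoenflies ↔ ∀ g ∈ grpD, ∃ a ∈ grpD, ∃ b ∈ grpD, g = a * b * a⁻¹ * b⁻¹ := by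
  rw [← schoenflies_iff]
  constructor
  · intro h g hg
    exact (comm_iff hg).1 (by rw [h]; exact hg)
  · intro h
    exact le_antisymm (fun g hg => (derD_iff.1 hg).1) fun g hg => (comm_iff hg).2 (h g hg)

theorem same_comm {g k : Homeo4} (hg : g ∈ grpD) (hk : k ∈ grpD) :
    SameSphere g k ↔ ∃ a ∈ grpD, ∃ b ∈ grpD, g * k⁻¹ = a * b * a⁻¹ * b⁻¹ := by
  rw [same_iff hg hk]
  exact comm_iff (grpD.mul_mem hg (grpD.inv_mem hk))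

end Pool.Agent.Sph4
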