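import Pool.Agent.Sph4.Statement
import Pool.Agent.HopfFin.Schoen

/-!
# The classification of smooth 3-spheres in `ℝ⁴` by `D / [D, D]`
-/

set_option autoImplicit false

open scoped ContDiff Topology
open Set Filter Metric

namespace Pool.Agent.Sph4

open Pool.Agent.HopfCov Pool.Agent.HopfFin Pool.Agent.HopfCov.Smooth

/-- every homeomorphism which is smooth near the unit sphere is, up to a translation, near the unit
sphere an element of `D` -/
theorem rep_D {h : E4 ≃ₜ E4} {ε : ℝ} (hε : 0 < ε) (hr : ∀ x, |‖x‖ - 1| < ε → LD 1 h x) :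
    ∃ g : E4 ≃ₜ E4, PD 1 g ∧ ∃ δ : ℝ, 0 < δ ∧ ∀ x, |‖x‖ - 1| < δ → g x = h x - h 0 := by
  obtain ⟨e, he, heε, he2⟩ : ∃ e : ℝ, 0 < e ∧ e ≤ ε ∧ e ≤ 1 / 2 :=
    ⟨min ε (1 / 2), lt_min hε (by norm_num), min_le_left _ _, min_le_right _ _⟩
  obtain ⟨F, hF⟩ : ∃ F : E4 ≃ₜ E4, F = tr (-(h 0)) * h := ⟨_, rfl⟩
  have hFx : ∀ x, F x = h x - h 0 := fun x => by rw [hF, mul_apply', tr_apply, sub_eq_add_neg]
  have hF0 : F 0 = 0 := by rw [hFx, sub_self]
  have hFl : ∀ x, |‖x‖ - 1| < ε → LD 1 F x := fun x hx => by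
    rw [hF]
    exact LD.mul_one' (LD_tr _ _) (hr x hx)
  obtain ⟨G₁, g1, g2⟩ := outer_ball (E := E4) hdim4 (F := F) (K := closedBall 0 (1 - e / 2))
    (isCompact_closedBall 0 _) (c := 1 + e / 2) (b := 1 + e) (by linarith) (by linarith)
    (closedBall_subset_closedBall (by linarith)) (by
      intro x hx hxK
      rw [mem_ball_zero_iff] at hx
      rw [mem_closedBall_zero_iff, not_le] at hxK
      exact (hFl x (by rw [abs_lt]; constructor <;> linarith)).rg)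
  have hG10 : G₁ 0 = 0 := by rw [g1 0 (mem_closedBall_self (by linarith)), hF0]
  obtain ⟨G₂, k0, k1, k2⟩ := inner_fix (E := E4) hdim4 hG10 (a := 1 - e / 4) (b := 1 - e / 8)
    (by linarith) (by linarith) (by
      intro x hx
      exact g2 x (by rw [mem_closedBall_zero_iff, not_le]; linarith))
  have hG2 : ∀ x, |‖x‖ - 1| < e / 8 → G₂ x = F x := by
    intro x hx
    rw [abs_lt] at hx
    rw [k2 x (by linarith), g1 x (by rw [mem_closedBall_zero_iff]; linarith)]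
  obtain ⟨s, hs, hs'⟩ := sign_const (f := G₂) (isOpen_compl_singleton (x := (0 : E4)))
    (preconnected_compl_singleton hdim4 (0 : E4)) k1
  have hs1 : s = 1 := by
    rcases hs with rfl | rfl
    · rfl
    · exfalso
      have hy0 : (e0 : E4) ≠ 0 := fun h0 => by
        have h1 := norm_e0
        rw [h0, norm_zero] at h1
        exact zero_ne_one h1
      have h3 : LD 1 G₂ e0 := by
        refine (hFl e0 (by rw [norm_e0, sub_self, abs_zero]; exact hε)).congr ?_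
        have h4 : ∀ᶠ z in 𝓝 (e0 : E4), |‖z‖ - 1| < e / 8 := by
          have h5 : Continuous fun z : E4 => |‖z‖ - 1| := by fun_prop
          exact h5.continuousAt.eventually_lt_const (by
            show |‖(e0 : E4)‖ - 1| < e / 8
            rw [norm_e0, sub_self, abs_zero]
            linarith)
        filter_upwards [h4] with z hz
        exact (hG2 z hz).symm
      have h4 := (hs' e0 hy0).2
      have h5 := h3.2
      linarith
  subst hs1
  exact ⟨G₂, ⟨k0, hs'⟩, e / 8, by linarith, fun x hx => by rw [hG2 x hx, hFx]⟩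

/-- a homeomorphism which is the identity near the unit sphere preserves its exterior -/
private theorem ext_pres {u : E4 ≃ₜ E4} {δ : ℝ} (hδ : 0 < δ) (hu : ∀ x, |‖x‖ - 1| < δ → u x = x)
    {x : E4} (hx : 1 ≤ ‖x‖) : 1 ≤ ‖u x‖ := by
  have h1 : 1 < Module.rank ℝ E4 := by
    rw [← Module.finrank_eq_rank]
    exact_mod_cast hdim4
  have hpre := (preconnected_outside1 (E := E4) h1).image u u.continuous.continuousOn
  by_contra hcon
  rw [not_le] at hcon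
  have hne : ∀ y : E4, 1 ≤ ‖y‖ → ‖u y‖ = 1 → ‖y‖ = 1 := by
    intro y _ hy
    have h2 : u (u y) = u y := hu _ (by rw [hy, sub_self, abs_zero]; exact hδ)
    have h3 := u.injective h2
    rw [h3] at hy
    exact hy
  have hx1 : ‖x‖ ≠ 1 := by
    intro h
    rw [hu x (by rw [h, sub_self, abs_zero]; exact hδ), h] at hcon
    exact lt_irrefl _ hcon
  have hx2 : 1 < ‖x‖ := lt_of_le_of_ne hx (Ne.symm hx1)
  obtain ⟨v, hv⟩ : ∃ v : E4, ‖v‖ = 1 := ⟨e0, norm_e0⟩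
  obtain ⟨c, hc1, hc2, hc3⟩ : ∃ c : ℝ, 1 < c ∧ c ≤ ‖x‖ ∧ c < 1 + δ := by
    refine ⟨min ‖x‖ (1 + δ / 2), lt_min hx2 (by linarith), min_le_left _ _, ?_⟩
    exact (min_le_right _ _).trans_lt (by linarith)
  have hpre2 : IsPreconnected ((fun y : E4 => c • y) '' {y : E4 | 1 ≤ ‖y‖}) :=
    (preconnected_outside1 (E := E4) h1).image _ (by fun_prop)
  have hpre3 := hpre2.image (fun y => ‖u y‖) u.continuous.norm.continuousOn
  have hm1 : ‖u x‖ ∈ (fun y => ‖u y‖) '' ((fun y : E4 => c • y) '' {y : E4 | 1 ≤ ‖y‖}) := by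
    refine ⟨x, ⟨c⁻¹ • x, ?_, ?_⟩, rfl⟩
    · show 1 ≤ ‖c⁻¹ • x‖
      rw [norm_smul, norm_inv, Real.norm_of_nonneg (by linarith), inv_mul_eq_div,
        le_div_iff₀ (by linarith), one_mul]
      exact hc2
    · show c • c⁻¹ • x = x
      rw [smul_smul, mul_inv_cancel₀ (by linarith), one_smul]
  have hm2 : c ∈ (fun y => ‖u y‖) '' ((fun y : E4 => c • y) '' {y : E4 | 1 ≤ ‖y‖}) := by
    refine ⟨c • v, ⟨v, hv.ge, rfl⟩, ?_⟩
    have h2 : ‖c • v‖ = c := by rw [norm_smul, hv, mul_one, Real.norm_of_nonneg (by linarith)]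
    show ‖u (c • v)‖ = c
    rw [hu (c • v) (by rw [h2, abs_lt]; constructor <;> linarith), h2]
  have hm3 := hpre3.Icc_subset hm1 hm2 ⟨hcon.le, hc1.le⟩
  obtain ⟨y, ⟨z, hz, rfl⟩, hy⟩ := hm3
  have hz1 : c ≤ ‖c • z‖ := by
    rw [norm_smul, Real.norm_of_nonneg (by linarith)]
    have hz' : 1 ≤ ‖z‖ := hz
    nlinarith
  have h2 := hne (c • z) (by linarith) hy
  linarith

/-- a homeomorphism which is the identity near the unit sphere can be changed to the identity in the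
unit ball -/
theorem cut_inside {u : E4 ≃ₜ E4} {δ : ℝ} (hδ : 0 < δ) (hux : ∀ x, |‖x‖ - 1| < δ → u x = x) :
    ∃ v : E4 ≃ₜ E4, (∀ x, 1 - δ < ‖x‖ → v x = u x) ∧ ∀ x, ‖x‖ < 1 → v x = x := by
  have hux' : ∀ x, |‖x‖ - 1| < δ → (u⁻¹ : E4 ≃ₜ E4) x = x := fun x hx => by
    apply u.injective
    rw [apply_inv_self', hux x hx]
  have hcont : ∀ w : E4 ≃ₜ E4, (∀ x, |‖x‖ - 1| < δ → w x = x) →
      Continuous fun x => if 1 ≤ ‖x‖ then w x else x := by
    intro w hw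
    refine Continuous.if_le w.continuous continuous_id continuous_const continuous_norm ?_
    intro x hx
    rw [hw x (by rw [← hx, sub_self, abs_zero]; exact hδ)]
  have hinv : ∀ w w' : E4 ≃ₜ E4, (∀ x, |‖x‖ - 1| < δ → w x = x) → (∀ x, w' (w x) = x) → ∀ x,
      (if 1 ≤ ‖(if 1 ≤ ‖x‖ then w x else x)‖ then w' (if 1 ≤ ‖x‖ then w x else x)
        else (if 1 ≤ ‖x‖ then w x else x)) = x := by
    intro w w' hw hww x
    by_cases hx : 1 ≤ ‖x‖
    · have h3 := ext_pres hδ hw hx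
      simp only [if_pos hx, if_pos h3]
      exact hww x
    · simp only [if_neg hx]
  obtain ⟨v, hv⟩ : ∃ v : E4 ≃ₜ E4, ∀ x, v x = if 1 ≤ ‖x‖ then u x else x :=
    ⟨{ toFun := fun x => if 1 ≤ ‖x‖ then u x else x
       invFun := fun x => if 1 ≤ ‖x‖ then (u⁻¹ : E4 ≃ₜ E4) x else x
       left_inv := hinv u u⁻¹ hux (inv_apply_self' u)
       right_inv := hinv u⁻¹ u hux' (apply_inv_self' u)
       continuous_toFun := hcont u hux
       continuous_invFun := hcont u⁻¹ hux' }, fun _ => rfl⟩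
  refine ⟨v, ?_, fun x hx => by rw [hv, if_neg (by linarith)]⟩
  intro x hx
  rw [hv]
  by_cases h3 : 1 ≤ ‖x‖
  · rw [if_pos h3]
  · rw [if_neg h3, hux x (by rw [abs_lt]; constructor <;> linarith)]

/-- equivalent spheres have congruent parametrisations -/
theorem ext_of_agree {g k F : E4 ≃ₜ E4} (hg : PD 1 g) (hk : PD 1 k) (hF : ∀ x, LD 1 F x) {δ : ℝ}
    (hδ : 0 < δ) (h : ∀ x, |‖x‖ - 1| < δ → F (g x) = k x) : Ext (k * g⁻¹) := by
  obtain ⟨v, v1, v2⟩ := cut_inside (u := (F * g)⁻¹ * k) hδ fun x hx => by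
    rw [mul_apply', ← h x hx]
    exact inv_apply_self' (F * g) x
  have hQ1 : ∀ y, 1 - δ < ‖(g⁻¹ : E4 ≃ₜ E4) y‖ →
      (F * (g * (v * g⁻¹)) : E4 ≃ₜ E4) y = (k * g⁻¹ : E4 ≃ₜ E4) y := by
    intro y hy
    rw [mul_apply', mul_apply', mul_apply', v1 _ hy, mul_apply', mul_apply']
    exact apply_inv_self' (F * g) _
  have hQ2 : ∀ y, ‖(g⁻¹ : E4 ≃ₜ E4) y‖ < 1 → (F * (g * (v * g⁻¹)) : E4 ≃ₜ E4) y = F y := by
    intro y hy
    rw [mul_apply', mul_apply', mul_apply', v2 _ hy, apply_inv_self']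
  have hkg : PD 1 (k * g⁻¹) := PD.mul_one' hk hg.inv
  refine ⟨F * (g * (v * g⁻¹)), fun y => ?_, ?_⟩
  · rcases lt_or_ge ‖(g⁻¹ : E4 ≃ₜ E4) y‖ 1 with hy | hy
    · refine (hF y).congr ?_
      have h3 : ∀ᶠ z in 𝓝 y, ‖(g⁻¹ : E4 ≃ₜ E4) z‖ < 1 :=
        (g⁻¹ : E4 ≃ₜ E4).continuous.norm.continuousAt.eventually_lt_const hy
      filter_upwards [h3] with z hz
      exact (hQ2 z hz).symm
    · have hy0 : y ≠ 0 := by
        rintro rfl
        rw [hg.inv.1, norm_zero] at hy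
        linarith
      refine (hkg.2 y hy0).congr ?_
      have h3 : ∀ᶠ z in 𝓝 y, 1 - δ < ‖(g⁻¹ : E4 ≃ₜ E4) z‖ :=
        (g⁻¹ : E4 ≃ₜ E4).continuous.norm.continuousAt.eventually_const_lt (by linarith)
      filter_upwards [h3] with z hz
      exact (hQ1 z hz).symm
  · have h3 : ∀ᶠ x : E4 in cocompact E4, 1 ≤ ‖(g⁻¹ : E4 ≃ₜ E4) x‖ :=
      (tendsto_norm_cocompact_atTop.comp
        (g⁻¹ : E4 ≃ₜ E4).isClosedEmbedding.tendsto_cocompact).eventually (eventually_ge_atTop 1)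
    exact h3.mono fun x hx => hQ1 x (by linarith)

/-- congruent elements of `D` give equivalent spheres -/
theorem agree_of_ext {g k : E4 ≃ₜ E4} (hg : PD 1 g) (hk : PD 1 k) (h : Ext (k * g⁻¹)) :
    ∃ (F : E4 ≃ₜ E4) (δ : ℝ), 0 < δ ∧ (∀ x, LD 1 F x) ∧
      ∀ x, |‖x‖ - 1| < δ → F (g x) = k x := by
  have hkg : PD 1 (k * g⁻¹) := PD.mul_one' hk hg.inv
  obtain ⟨r, hr, hr1⟩ : ∃ r : ℝ, 0 < r ∧ ∀ y : E4, ‖y‖ < r → ‖(g⁻¹ : E4 ≃ₜ E4) y‖ < 1 / 2 := by
    have h3 := (g⁻¹ : E4 ≃ₜ E4).continuous.norm.tendsto 0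
    rw [hg.inv.1, norm_zero] at h3
    have h4 := h3.eventually (gt_mem_nhds (show (0 : ℝ) < 1 / 2 by norm_num))
    obtain ⟨r, hr, h5⟩ := Metric.eventually_nhds_iff.1 h4
    exact ⟨r, hr, fun y hy => h5 (by rwa [dist_zero_right])⟩
  obtain ⟨H, h1, h2⟩ := ext_outside hkg h hr
  refine ⟨H, 1 / 2, by norm_num, h1, fun x hx => ?_⟩
  have h3 : r ≤ ‖g x‖ := by
    by_contra hcon
    rw [not_le] at hcon
    have h4 := hr1 _ hcon
    rw [inv_apply_self'] at h4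
    rw [abs_lt] at hx
    linarith
  rw [h2 _ h3, mul_apply', inv_apply_self']

/-- **the classification of the smooth spheres** -/
theorem same_iff {g k : Homeo4} (hg : g ∈ grpD) (hk : k ∈ grpD) :
    SameSphere g k ↔ g * k⁻¹ ∈ derD := by
  have hg' : PD 1 (show E4 ≃ₜ E4 from g) := mem_groupD.1 hg
  have hk' : PD 1 (show E4 ≃ₜ E4 from k) := mem_groupD.1 hk
  have h1 : g * k⁻¹ ∈ derD ↔ Ext ((show E4 ≃ₜ E4 from k) * (show E4 ≃ₜ E4 from g)⁻¹) := by
    have h2 : k * g⁻¹ ∈ grpD := grpD.mul_mem hk (grpD.inv_mem hg)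
    have h3 : g * k⁻¹ ∈ derD ↔ k * g⁻¹ ∈ derD := by
      rw [← derD.inv_mem_iff, mul_inv_rev, inv_inv]
    rw [h3, derD_iff]
    exact ⟨fun h => extendable_iff.1 h.2, fun h => ⟨h2, extendable_iff.2 h⟩⟩
  rw [h1]
  constructor
  · rintro ⟨F, δ, hδ, h2, h3⟩
    exact ext_of_agree (F := (show E4 ≃ₜ E4 from F)) hg' hk' (fun x => regular_iff.1 (h2 x)) hδ h3
  · intro h
    obtain ⟨F, δ, hδ, h2, h3⟩ := agree_of_ext hg' hk' h
    exact ⟨F, δ, hδ, fun x => regular_iff.2 (h2 x), h3⟩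

theorem exists_rep {h : Homeo4} (hh : NearSphere h) : ∃ g ∈ grpD, SameSphere h g := by
  obtain ⟨ε, hε, h1⟩ := hh
  obtain ⟨g, hg, δ, hδ, h2⟩ := rep_D (h := (show E4 ≃ₜ E4 from h)) hε
    fun x hx => regular_iff.1 (h1 x hx)
  refine ⟨g, mem_groupD.2 hg, (tr (-((show E4 ≃ₜ E4 from h) 0)) : E4 ≃ₜ E4), δ, hδ,
    fun x => regular_iff.2 (LD_tr _ _), fun x hx => ?_⟩
  have h3 := h2 x hx
  show tr (-((show E4 ≃ₜ E4 from h) 0)) ((show E4 ≃ₜ E4 from h) x) = g x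
  rw [h3, tr_apply, sub_eq_add_neg]

end Pool.Agent.Sph4
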