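import Pool.Agent.HopfCov.Realise

/-!
# A radial contraction whose composition with `h` contracts
-/

set_option autoImplicit false
set_option linter.unusedSectionVars false

open scoped ContDiff Topology
open Set Filter Metric

namespace Pool.Agent.Sph4

open Pool.Agent.HopfCov

variable {E : Type} [NormedAddCommGroup E] [InnerProductSpace ℝ E] [FiniteDimensional ℝ E]

/-- a radial contraction whose composition with `h` contracts (see `exists_rad`) -/
theorem exists_rad2 [Nontrivial E] {h : E ≃ₜ E} (h0 : h 0 = 0) :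
    ∃ (e : ℝ ≃o ℝ) (A : ℝ → ℝ), (∀ u, e u = A u) ∧ ContDiff ℝ ∞ A ∧ (∀ u, 0 < deriv A u) ∧
      Tendsto A atTop atTop ∧ (∀ x, ‖(rad e * h : E ≃ₜ E) x‖ ≤ 2⁻¹ * ‖x‖) ∧
      ∀ x, ‖(rad e : E ≃ₜ E) x‖ ≤ 2⁻¹ * ‖x‖ := by
  have hi0 : (h⁻¹ : E ≃ₜ E) 0 = 0 := by
    conv_lhs => rw [← h0]
    exact inv_apply_self' _ _
  have hine : ∀ y : E, y ≠ 0 → (h⁻¹ : E ≃ₜ E) y ≠ 0 := by
    intro y hy hy0
    exact hy ((h⁻¹ : E ≃ₜ E).injective (hy0.trans hi0.symm))
  set F : E → ℝ := fun y => Real.log ‖(h⁻¹ : E ≃ₜ E) y‖ - Real.log 2 with hF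
  set L : ℝ → ℝ := fun u => sInf (F '' {y | Real.exp u ≤ ‖y‖}) with hL
  have hne : ∀ u, (F '' {y | Real.exp u ≤ ‖y‖}).Nonempty := by
    intro u
    obtain ⟨y, hy⟩ := exists_norm_eq E (Real.exp_pos u).le
    exact ⟨F y, y, hy.ge, rfl⟩
  have hbdd : ∀ u, BddBelow (F '' {y | Real.exp u ≤ ‖y‖}) := by
    intro u
    have hc : Tendsto h (𝓝 0) (𝓝 0) := by
      have := h.continuous.tendsto 0
      rwa [h0] at this
    obtain ⟨δ, hδ, hδ'⟩ := Metric.eventually_nhds_iff_ball.1
      (hc.eventually (ball_mem_nhds (0 : E) (Real.exp_pos u)))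
    refine ⟨Real.log δ - Real.log 2, ?_⟩
    rintro _ ⟨y, hy, rfl⟩
    have h1 : δ ≤ ‖(h⁻¹ : E ≃ₜ E) y‖ := by
      by_contra hcon
      push Not at hcon
      have h2 := hδ' ((h⁻¹ : E ≃ₜ E) y) (by simpa using hcon)
      rw [apply_inv_self', dist_zero_right] at h2
      exact absurd hy (not_le.2 h2)
    have h3 := Real.log_le_log hδ h1
    show Real.log δ - Real.log 2 ≤ Real.log ‖(h⁻¹ : E ≃ₜ E) y‖ - Real.log 2
    linarith
  have hmono : Monotone L := by
    intro u v huv
    refine csInf_le_csInf (hbdd u) (hne v) (image_mono fun y hy => ?_)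
    exact (Real.exp_le_exp.2 huv).trans hy
  have htop : Tendsto L atTop atTop := by
    rw [Filter.tendsto_atTop]
    intro b
    obtain ⟨R₁, hR₁⟩ := bounded_image h (Real.exp (b + Real.log 2))
    have h1 : ∀ᶠ u in atTop, max R₁ 0 + 1 ≤ Real.exp u :=
      Real.tendsto_exp_atTop.eventually (eventually_ge_atTop _)
    filter_upwards [h1] with u hu
    refine le_csInf (hne u) ?_
    rintro _ ⟨y, hy, rfl⟩
    have hy' : Real.exp u ≤ ‖y‖ := hy
    have h2 : Real.exp (b + Real.log 2) < ‖(h⁻¹ : E ≃ₜ E) y‖ := by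
      by_contra hcon
      push Not at hcon
      have h3 := hR₁ _ hcon
      rw [apply_inv_self'] at h3
      have h4 := le_max_left R₁ 0
      linarith
    have h5 : b + Real.log 2 ≤ Real.log ‖(h⁻¹ : E ≃ₜ E) y‖ := by
      rw [Real.le_log_iff_exp_le ((Real.exp_pos _).trans h2)]
      exact h2.le
    show b ≤ Real.log ‖(h⁻¹ : E ≃ₜ E) y‖ - Real.log 2
    linarith
  have hbot : Tendsto L atBot atBot := by
    rw [Filter.tendsto_atBot]
    intro b
    have hc : Tendsto (h⁻¹ : E ≃ₜ E) (𝓝 0) (𝓝 0) := by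
      have := (h⁻¹ : E ≃ₜ E).continuous.tendsto 0
      rwa [hi0] at this
    obtain ⟨δ, hδ, hδ'⟩ := Metric.eventually_nhds_iff_ball.1
      (hc.eventually (ball_mem_nhds (0 : E) (Real.exp_pos (b + Real.log 2))))
    have h1 : ∀ᶠ u in atBot, Real.exp u < δ := by
      have := Real.tendsto_exp_atBot.eventually (gt_mem_nhds hδ)
      exact this
    filter_upwards [h1] with u hu
    obtain ⟨y, hy⟩ := exists_norm_eq E (Real.exp_pos u).le
    have hy0 : y ≠ 0 := by
      rw [← norm_pos_iff, hy]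
      exact Real.exp_pos u
    have h2 := hδ' y (by rw [mem_ball_zero_iff, hy]; exact hu)
    rw [dist_zero_right] at h2
    have h3 : F y ≤ b := by
      have h4 : Real.log ‖(h⁻¹ : E ≃ₜ E) y‖ ≤ b + Real.log 2 := by
        rw [Real.log_le_iff_le_exp (norm_pos_iff.2 (hine y hy0))]
        exact h2.le
      show Real.log ‖(h⁻¹ : E ≃ₜ E) y‖ - Real.log 2 ≤ b
      linarith
    exact (csInf_le (hbdd u) ⟨y, hy.ge, rfl⟩).trans h3
  have hmono' : Monotone fun u => min (L u) (u - Real.log 2) :=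
    hmono.min fun u v huv => sub_le_sub_right huv _
  have htop' : Tendsto (fun u => min (L u) (u - Real.log 2)) atTop atTop := by
    rw [Filter.tendsto_atTop]
    intro b
    filter_upwards [Filter.tendsto_atTop.1 htop b, eventually_ge_atTop (b + Real.log 2)]
      with u h1 h2
    exact le_min h1 (by linarith)
  have hbot' : Tendsto (fun u => min (L u) (u - Real.log 2)) atBot atBot :=
    tendsto_atBot_mono (fun u => min_le_left _ _) hbot
  obtain ⟨A, a1, a2, a3', a4, a5⟩ := exists_smooth_below hmono' htop' hbot'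
  have a3 : ∀ u, A u ≤ L u := fun u => (a3' u).trans (min_le_left _ _)
  obtain ⟨e, he⟩ := exists_orderIso a1 a2 a4 a5
  refine ⟨e, A, he, a1, a2, a4, fun x => ?_, fun x => ?_⟩
  swap
  · by_cases hx : x = 0
    · rw [hx, rad_apply, radFun_zero, norm_zero, mul_zero]
    · have hxpos : 0 < ‖x‖ := norm_pos_iff.2 hx
      rw [rad_apply, norm_radFun _ hx, he]
      have h1 : A (Real.log ‖x‖) ≤ Real.log ‖x‖ - Real.log 2 :=
        (a3' _).trans (min_le_right _ _)
      calc Real.exp (A (Real.log ‖x‖)) ≤ Real.exp (Real.log ‖x‖ - Real.log 2) :=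
            Real.exp_le_exp.2 h1
        _ = 2⁻¹ * ‖x‖ := by
            rw [Real.exp_sub, Real.exp_log hxpos, Real.exp_log two_pos]
            ring
  by_cases hx : x = 0
  · rw [hx, mul_apply', h0, rad_apply, radFun_zero, norm_zero, mul_zero]
  · have hhx : h x ≠ 0 := by
      intro h1
      exact hx (h.injective (h1.trans h0.symm))
    have hpos : 0 < ‖h x‖ := norm_pos_iff.2 hhx
    have hxpos : 0 < ‖x‖ := norm_pos_iff.2 hx
    rw [mul_apply', rad_apply, norm_radFun _ hhx, he]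
    have h1 : A (Real.log ‖h x‖) ≤ F (h x) := by
      refine (a3 _).trans (csInf_le (hbdd _) ⟨h x, ?_, rfl⟩)
      show Real.exp (Real.log ‖h x‖) ≤ ‖h x‖
      rw [Real.exp_log hpos]
    have h2 : F (h x) = Real.log ‖x‖ - Real.log 2 := by
      show Real.log ‖(h⁻¹ : E ≃ₜ E) (h x)‖ - Real.log 2 = _
      rw [inv_apply_self']
    rw [h2] at h1
    calc Real.exp (A (Real.log ‖h x‖)) ≤ Real.exp (Real.log ‖x‖ - Real.log 2) :=
          Real.exp_le_exp.2 h1
      _ = 2⁻¹ * ‖x‖ := by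
          rw [Real.exp_sub, Real.exp_log hxpos, Real.exp_log two_pos]
          ring

end Pool.Agent.Sph4
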