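import Pool.Agent.HopfFin.StatementSch

/-!
# Smooth 3-spheres in `ℝ⁴`

By Brown's theorem every smooth embedding of a neighbourhood of the unit sphere into `ℝ⁴` agrees near the
unit sphere with a homeomorphism of `ℝ⁴` (if it maps the inner side to the bounded side).
-/

set_option autoImplicit false

open scoped ContDiff Topology
open Set Filter Metric

namespace Pool.Agent.HopfCov.Smooth

/-- the homeomorphism `h` of `ℝ⁴` is smooth and orientation preserving near the unit sphere -/
def NearSphere (h : Homeo4) : Prop :=
  ∃ ε : ℝ, 0 < ε ∧ ∀ x, |nrm x - 1| < ε → RegularAt h.fn x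

/-- some orientation preserving diffeomorphism `F` of `ℝ⁴` satisfies `F h = k` near the unit sphere -/
def SameSphere (h k : Homeo4) : Prop :=
  ∃ (F : Homeo4) (ε : ℝ), 0 < ε ∧ (∀ x, RegularAt F.fn x) ∧
    ∀ x, |nrm x - 1| < ε → F.fn (h.fn x) = k.fn x

end Pool.Agent.HopfCov.Smooth
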